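import Pool.Agent.J4.H5.VJ.Defs4
import Pool.Agent.Helper259.HtExt

/-!
# Project VJ, piece NSX: heights of the values of forms, Nullstellensatz
-/

set_option autoImplicit false

open MvPolynomial NumberField Module

namespace Pool.Agent.J4.H5.VJ.NSXh

/-- a function with given fibres -/
theorem exists_rep {n : ℕ} (N : ℕ) (e : Fin (n + 1) →₀ ℕ) (he : e.degree = N) :
    ∃ r : Fin N → Fin (n + 1), ∀ (L : Type) [Field L] (x : Fin (n + 1) → L),
      ∏ i, x i ^ e i = ∏ i, x (r i) := by
  subst he
  have h1 : Fintype.card (Σ i : Fin (n + 1), Fin (e i)) = e.degree := by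
    rw [Fintype.card_sigma]
    simp only [Fintype.card_fin]
    rw [Finsupp.degree_apply]
    exact (Finset.sum_subset (Finset.subset_univ _) (fun i _ hi => by
      simpa using hi)).symm
  let ε : Fin e.degree ≃ (Σ i : Fin (n + 1), Fin (e i)) :=
    (Fintype.equivFinOfCardEq h1).symm
  refine ⟨fun i => (ε i).1, fun L _ x => ?_⟩
  rw [Equiv.prod_comp ε (fun a => x a.1), Fintype.prod_sigma]
  refine Finset.prod_congr rfl fun i _ => ?_
  simp

/-- The upper bound. -/
theorem up {k : Type} [Field k] [NumberField k] {n : ℕ} {ι : Type} [Fintype ι] (N : ℕ)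
    (p : ι → MvPolynomial (Fin (n + 1)) k) (hp : ∀ j, (p j).IsHomogeneous N) :
    ∃ c : ℝ, ∀ (L : Type) [Field L] [NumberField L] [Algebra k L] (x : Fin (n + 1) → L), x ≠ 0 →
      heightI k (fun j => aeval x (p j)) ≤ N * height k x + c := by
  classical
  have hex : ∀ e : Fin (n + 1) →₀ ℕ, ∃ r : Fin N → Fin (n + 1), e.degree = N →
      ∀ (L : Type) [Field L] (x : Fin (n + 1) → L), ∏ i, x i ^ e i = ∏ i, x (r i) := by
    intro e
    by_cases he : e.degree = N
    · obtain ⟨r, hr⟩ := exists_rep N e he
      exact ⟨r, fun _ => hr⟩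
    · exact ⟨fun _ => 0, fun h => absurd h he⟩
  choose r hr using hex
  let A : ι × (Fin N → Fin (n + 1)) → k := fun a =>
    ∑ e ∈ (p a.1).support.filter (fun e => r e = a.2), coeff e (p a.1)
  refine ⟨finrank ℚ k * Real.log (Nat.card (Fin N → Fin (n + 1))) + Height.logHeight A, ?_⟩
  intro L _ _ _ x hx
  have : FiniteDimensional k L := Module.Finite.of_restrictScalars_finite ℚ k L
  have hfr : (0 : ℝ) < finrank k L := by exact_mod_cast (Module.finrank_pos (R := k) (M := L))
  have h1 : (fun j => aeval x (p j)) = fun j => ∑ μ : Fin N → Fin (n + 1),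
      (fun a => algebraMap k L (A a)) (j, μ) * ∏ i, x (μ i) := by
    funext j
    rw [aeval_def, eval₂_eq']
    rw [← Finset.sum_fiberwise (p j).support (fun e => r e)]
    refine Finset.sum_congr rfl fun μ _ => ?_
    simp only [A, map_sum, Finset.sum_mul]
    refine Finset.sum_congr rfl fun e he => ?_
    rw [Finset.mem_filter] at he
    rw [hr e ((hp j).degree_eq_sum_deg_support he.1 ▸ rfl) L x, he.2]
  have h2 := Height.logHeight_linearMap_apply_le (fun a => algebraMap k L (A a))
    (fun μ : Fin N → Fin (n + 1) => ∏ i, x (μ i))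
  rw [← h1, Pool.Agent.Helper259.HtExt.logHeight_ext, NumberField.totalWeight_eq_finrank,
    Height.logHeight_fun_prod_eq (x := fun _ : Fin N => x) (fun _ => hx),
    ← Module.finrank_mul_finrank ℚ k L] at h2
  simp only [Finset.sum_const, Finset.card_univ, Fintype.card_fin, nsmul_eq_mul] at h2
  unfold heightI height
  rw [div_le_iff₀ hfr]
  push_cast at h2
  calc Height.logHeight (fun j => aeval x (p j)) ≤ _ := h2
    _ = _ := by field_simp; ring

/-- The homogeneous components of a product with a form. -/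
theorem hc_mul {k : Type} [Field k] {n : ℕ} (N D : ℕ) (q p : MvPolynomial (Fin (n + 1)) k)
    (hp : p.IsHomogeneous N) :
    homogeneousComponent (D + N) (q * p) = homogeneousComponent D q * p := by
  conv_lhs => rw [← sum_homogeneousComponent q, Finset.sum_mul, map_sum]
  have h1 : ∀ i, homogeneousComponent (D + N) (homogeneousComponent i q * p) =
      if i = D then homogeneousComponent i q * p else 0 := by
    intro i
    have h2 : (homogeneousComponent i q * p) ∈ homogeneousSubmodule (Fin (n + 1)) k (i + N) :=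
      (homogeneousComponent_isHomogeneous i q).mul hp
    rw [homogeneousComponent_of_mem h2]
    by_cases h : i = D
    · simp [h]
    · have h' : ¬ (D + N = i + N) := fun h'' => h (by omega)
      rw [if_neg h, if_neg h']
  simp only [h1]
  rw [Finset.sum_ite_eq']
  split_ifs with h
  · rfl
  · rw [homogeneousComponent_eq_zero, zero_mul]
    simpa [Nat.lt_succ_iff] using h

theorem hc_mul_zero {k : Type} [Field k] {n : ℕ} (N D : ℕ) (q p : MvPolynomial (Fin (n + 1)) k)
    (hp : p.IsHomogeneous N) (hD : D < N) :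
    homogeneousComponent D (q * p) = 0 := by
  conv_lhs => rw [← sum_homogeneousComponent q, Finset.sum_mul, map_sum]
  refine Finset.sum_eq_zero fun i _ => ?_
  have h2 : (homogeneousComponent i q * p) ∈ homogeneousSubmodule (Fin (n + 1)) k (i + N) :=
    (homogeneousComponent_isHomogeneous i q).mul hp
  rw [homogeneousComponent_of_mem h2, if_neg (by omega)]

/-- The lower bound. -/
theorem low {k : Type} [Field k] [NumberField k] {n t : ℕ} {ι : Type} [Fintype ι] (N : ℕ)
    (f : Fin t → MvPolynomial (Fin (n + 1)) k) (d : Fin t → ℕ) (hf : ∀ i, (f i).IsHomogeneous (d i))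
    (p : ι → MvPolynomial (Fin (n + 1)) k) (hp : ∀ j, (p j).IsHomogeneous N)
    (hmem : ∀ l, ∃ M : ℕ, X l ^ M ∈ Ideal.span (Set.range f ∪ Set.range p)) :
    ∃ c : ℝ, ∀ (L : Type) [Field L] [NumberField L] [Algebra k L] (x : Fin (n + 1) → L), x ≠ 0 →
      (∀ i, aeval x (f i) = 0) → (fun j => aeval x (p j)) ≠ 0 ∧
      N * height k x ≤ heightI k (fun j => aeval x (p j)) + c := by
  classical
  choose M0 hM0 using hmem
  let M : ℕ := ∑ l, M0 l
  have hM : ∀ l, X l ^ (M + N) ∈ Ideal.span (Set.range f ∪ Set.range p) := by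
    intro l
    have h1 : M0 l ≤ M + N := le_trans (Finset.single_le_sum (f := M0) (fun _ _ => Nat.zero_le _)
      (Finset.mem_univ l)) (Nat.le_add_right _ _)
    obtain ⟨b, hb⟩ := Nat.exists_eq_add_of_le h1
    rw [hb, pow_add]
    exact Ideal.mul_mem_right _ _ (hM0 l)
  -- coefficients
  have hM' : ∀ l, ∃ (a : Fin t → MvPolynomial (Fin (n + 1)) k)
      (q : ι → MvPolynomial (Fin (n + 1)) k),
      X l ^ (M + N) = ∑ i, a i * f i + ∑ j, q j * p j := by
    intro l
    have h1 := hM l
    rw [Ideal.span_union, Submodule.mem_sup] at h1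
    obtain ⟨y, hy, z, hz, hyz⟩ := h1
    rw [Ideal.mem_span_range_iff_exists_fun] at hy hz
    obtain ⟨a, ha⟩ := hy
    obtain ⟨q, hq⟩ := hz
    exact ⟨a, q, by rw [ha, hq, hyz]⟩
  choose a q haq using hM'
  obtain ⟨c, hc⟩ := up M (fun z : Fin (n + 1) × ι => homogeneousComponent M (q z.1 z.2))
    (fun z => homogeneousComponent_isHomogeneous M _)
  refine ⟨c + finrank ℚ k * Real.log (Nat.card ι), ?_⟩
  intro L _ _ _ x hx hfx
  have : FiniteDimensional k L := Module.Finite.of_restrictScalars_finite ℚ k L
  have hfr : (0 : ℝ) < finrank k L := by exact_mod_cast (Module.finrank_pos (R := k) (M := L))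
  have h1 : ∀ l, x l ^ (M + N) = ∑ j, aeval x (homogeneousComponent M (q l j)) * aeval x (p j) := by
    intro l
    have h2 := congrArg (homogeneousComponent (M + N)) (haq l)
    have h3 : homogeneousComponent (M + N) (X l ^ (M + N) : MvPolynomial (Fin (n + 1)) k) =
        X l ^ (M + N) := by
      apply homogeneousComponent_eq_self
      simpa using (isHomogeneous_X k l).pow (M + N)
    rw [h3, map_add, map_sum, map_sum] at h2
    have h4 := congrArg (aeval x) h2
    rw [map_add, map_sum, map_sum, map_pow, aeval_X] at h4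
    rw [h4]
    have h5 : ∑ i, aeval x (homogeneousComponent (M + N) (a l i * f i)) = 0 := by
      refine Finset.sum_eq_zero fun i _ => ?_
      by_cases hd : d i ≤ M + N
      · obtain ⟨b, hb⟩ := Nat.exists_eq_add_of_le' hd
        rw [hb, hc_mul (d i) b _ _ (hf i), map_mul, hfx i, mul_zero]
      · rw [hc_mul_zero (d i) _ _ _ (hf i) (by omega), map_zero]
    rw [h5, zero_add]
    refine Finset.sum_congr rfl fun j _ => ?_
    rw [hc_mul N M _ _ (hp j), map_mul]
  have hne : (fun j => aeval x (p j)) ≠ 0 := by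
    intro h
    apply hx
    funext l
    have h2 := h1 l
    rw [Finset.sum_eq_zero (fun j _ => by rw [show aeval x (p j) = 0 from congrFun h j,
      mul_zero])] at h2
    exact eq_zero_of_pow_eq_zero h2
  refine ⟨hne, ?_⟩
  have h2 := Height.logHeight_linearMap_apply_le
    (fun z : Fin (n + 1) × ι => aeval x (homogeneousComponent M (q z.1 z.2)))
    (fun j => aeval x (p j))
  have h3 : (fun l => ∑ j, aeval x (homogeneousComponent M (q l j)) * aeval x (p j)) =
      x ^ (M + N) := by
    funext l
    rw [Pi.pow_apply, h1 l]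
  simp only [h3] at h2
  rw [Height.logHeight_pow, NumberField.totalWeight_eq_finrank,
    ← Module.finrank_mul_finrank ℚ k L] at h2
  have h4 := hc L x hx
  unfold heightI height at h4 ⊢
  rw [div_le_iff₀ hfr] at h4
  push_cast at h2
  rw [mul_div_assoc', div_le_iff₀ hfr, add_mul, div_mul_cancel₀ _ hfr.ne']
  have h5 : (M * (Height.logHeight x / finrank k L) + c) * finrank k L =
      M * Height.logHeight x + c * finrank k L := by field_simp
  rw [h5] at h4
  nlinarith [h2, h4]

/-- The Nullstellensatz. -/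
theorem nss {k : Type} [Field k] {n t : ℕ} {ι : Type}
    (f : Fin t → MvPolynomial (Fin (n + 1)) k) (p : ι → MvPolynomial (Fin (n + 1)) k)
    (h : ∀ (Ω : Type) [Field Ω] [Algebra (AlgebraicClosure k) Ω] (z : Fin (n + 1) → Ω), z ≠ 0 →
      (∀ i, aeval z ((f i).map (algebraMap k (AlgebraicClosure k))) = 0) →
      ∃ j, aeval z ((p j).map (algebraMap k (AlgebraicClosure k))) ≠ 0) (l : Fin (n + 1)) :
    ∃ M : ℕ, X l ^ M ∈ Ideal.span (Set.range f ∪ Set.range p) := by
  by_contra hcon
  set I := Ideal.span (Set.range f ∪ Set.range p) with hI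
  have h1 : (X l : MvPolynomial (Fin (n + 1)) k) ∉ I.radical := fun ⟨M, hM⟩ => hcon ⟨M, hM⟩
  rw [Ideal.radical_eq_sInf, Submodule.mem_sInf] at h1
  push Not at h1
  obtain ⟨P, ⟨hIP, hP⟩, hlP⟩ := h1
  let R := MvPolynomial (Fin (n + 1)) k ⧸ P
  haveI : IsDomain R := Ideal.Quotient.isDomain P
  let F := FractionRing R
  let Ω := AlgebraicClosure F
  letI : Algebra k Ω := ((algebraMap F Ω).comp ((algebraMap R F).comp (algebraMap k R))).toAlgebra
  let φ : AlgebraicClosure k →ₐ[k] Ω := IsAlgClosed.lift
  letI : Algebra (AlgebraicClosure k) Ω := φ.toRingHom.toAlgebra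
  let z : Fin (n + 1) → Ω := fun i => algebraMap F Ω (algebraMap R F (Ideal.Quotient.mk P (X i)))
  have hinj : Function.Injective (fun r : R => algebraMap F Ω (algebraMap R F r)) :=
    (FaithfulSMul.algebraMap_injective F Ω).comp (IsFractionRing.injective R F)
  have hz : ∀ g : MvPolynomial (Fin (n + 1)) k,
      aeval z (g.map (algebraMap k (AlgebraicClosure k))) =
        algebraMap F Ω (algebraMap R F (Ideal.Quotient.mk P g)) := by
    intro g
    rw [aeval_def, eval₂_map]
    have h2 : (algebraMap (AlgebraicClosure k) Ω).comp (algebraMap k (AlgebraicClosure k)) =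
        algebraMap k Ω := by
      ext c
      exact φ.commutes c
    rw [h2]
    have h3 : (eval₂Hom (algebraMap k Ω) z) =
        ((algebraMap F Ω).comp ((algebraMap R F).comp (Ideal.Quotient.mk P))) := by
      apply MvPolynomial.ringHom_ext
      · intro c
        rw [coe_eval₂Hom, eval₂_C]
        rfl
      · intro i
        rw [coe_eval₂Hom, eval₂_X]
        rfl
    exact congrFun (congrArg (fun ψ : MvPolynomial (Fin (n + 1)) k →+* Ω => (ψ : _ → Ω)) h3) g
  have hz0 : ∀ g ∈ P, aeval z (g.map (algebraMap k (AlgebraicClosure k))) = 0 := by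
    intro g hg
    rw [hz g, Ideal.Quotient.eq_zero_iff_mem.mpr hg, map_zero, map_zero]
  have hzne : z ≠ 0 := by
    intro h0
    apply hlP
    have h2 : (fun r : R => algebraMap F Ω (algebraMap R F r)) (Ideal.Quotient.mk P (X l)) =
        (fun r : R => algebraMap F Ω (algebraMap R F r)) 0 := by
      have := congrFun h0 l
      simpa [z] using this
    exact Ideal.Quotient.eq_zero_iff_mem.mp (hinj h2)
  obtain ⟨j, hj⟩ := h Ω z hzne (fun i => hz0 _ (hIP (Ideal.subset_span (Or.inl ⟨i, rfl⟩))))
  exact hj (hz0 _ (hIP (Ideal.subset_span (Or.inr ⟨j, rfl⟩))))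

end Pool.Agent.J4.H5.VJ.NSXh
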