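import Pool.Agent.J4.H14.VJ.Ht

/-!
# Project VJ, piece NSX: assembly
-/

set_option autoImplicit false

open MvPolynomial NumberField Module

namespace Pool.Agent.J4.H5.VJ.NSXh

/-- The geometric input. -/
def S_GEO : Prop := ∀ (k : Type) [Field k] (n t u s : ℕ)
  (f : Fin t → MvPolynomial (Fin (n + 1)) k) (G : Fin u → MvPolynomial (Fin (n + 1)) k),
  IsTransV s f G → ∀ (Ω : Type) [Field Ω] [Algebra k Ω] (z : Fin (n + 1) → Ω), z ≠ 0 →
  (∀ i, aeval z (f i) = 0) →
  (∀ (α α' : Fin s → Fin t) (β β' : Fin s → Fin (n + 1)),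
    gaussRow f α z β * gaussRow f α' z β' = gaussRow f α z β' * gaussRow f α' z β) ∧
  ∃ (α : Fin s → Fin t) (β : Fin s → Fin (n + 1)), (∀ j, z (β j) ≠ 0) ∧ gaussRow f α z β ≠ 0

/-- the minor as a form -/
noncomputable def mnr {k : Type} [Field k] {n t s : ℕ} (f : Fin t → MvPolynomial (Fin (n + 1)) k)
    (a : Fin s → Fin t) (b : Fin s → Fin (n + 1)) : MvPolynomial (Fin (n + 1)) k :=
  (Matrix.of fun i j => pderiv (b j) (f (a i))).det

theorem aeval_mnr {k L : Type} [Field k] [Field L] [Algebra k L] {n t s : ℕ}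
    (f : Fin t → MvPolynomial (Fin (n + 1)) k) (a : Fin s → Fin t) (b : Fin s → Fin (n + 1))
    (x : Fin (n + 1) → L) : aeval x (mnr f a b) = gaussRow f a x b := by
  unfold mnr gaussRow
  rw [AlgHom.map_det]
  rfl

theorem mnr_hom {k : Type} [Field k] {n t s : ℕ} (f : Fin t → MvPolynomial (Fin (n + 1)) k)
    (d : Fin t → ℕ) (hf : ∀ i, (f i).IsHomogeneous (d i)) (a : Fin s → Fin t)
    (b : Fin s → Fin (n + 1)) : (mnr f a b).IsHomogeneous (∑ i, (d (a i) - 1)) := by
  unfold mnr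
  rw [Matrix.det_apply]
  refine IsHomogeneous.sum _ _ _ fun σ _ => ?_
  have h1 : (∏ i, (Matrix.of fun i j => pderiv (b j) (f (a i))) (σ i) i).IsHomogeneous
      (∑ i, (d (a (σ i)) - 1)) := by
    refine IsHomogeneous.prod _ _ _ fun i _ => ?_
    exact (hf (a (σ i))).pderiv
  rw [Equiv.sum_comp σ (fun i => d (a i) - 1)] at h1
  rw [Units.smul_def, zsmul_eq_mul]
  have h2 : (((Equiv.Perm.sign σ : ℤˣ) : ℤ) : MvPolynomial (Fin (n + 1)) k).IsHomogeneous 0 := by
    have := isHomogeneous_C (Fin (n + 1)) ((((Equiv.Perm.sign σ : ℤˣ) : ℤ) : k))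
    simpa using this
  simpa using h2.mul h1

theorem t_NSX (hG : S_GEO) : S_NSX := by
  intro k _ _ n t u s f G d hf hT
  classical
  let Da : (Fin s → Fin t) → ℕ := fun a => ∑ i, (d (a i) - 1)
  let D : ℕ := Finset.univ.sup Da
  have hD : ∀ a, Da a ≤ D := fun a => Finset.le_sup (Finset.mem_univ a)
  let I := (Fin (n + 1) × (Fin s → Fin t)) × (Fin s → Fin (n + 1))
  let p : I → MvPolynomial (Fin (n + 1)) k := fun z =>
    X z.1.1 ^ (D - Da z.1.2) * mnr f z.1.2 z.2
  let p' : I → MvPolynomial (Fin (n + 1)) k := fun z =>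
    X z.1.1 ^ (D - Da z.1.2) * ((∏ j, X (z.2 j)) * mnr f z.1.2 z.2)
  have hp : ∀ z, (p z).IsHomogeneous D := by
    intro z
    have h1 := ((isHomogeneous_X k z.1.1).pow (D - Da z.1.2)).mul (mnr_hom f d hf z.1.2 z.2)
    have h2 : 1 * (D - Da z.1.2) + ∑ i, (d (z.1.2 i) - 1) = D := by
      have := hD z.1.2
      simp only [Da] at this ⊢
      omega
    rw [h2] at h1
    exact h1
  have hp' : ∀ z, (p' z).IsHomogeneous (D + s) := by
    intro z
    have h0 : (∏ j : Fin s, (X (z.2 j) : MvPolynomial (Fin (n + 1)) k)).IsHomogeneous s := by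
      have := IsHomogeneous.prod Finset.univ (fun j : Fin s =>
        (X (z.2 j) : MvPolynomial (Fin (n + 1)) k)) (fun _ => 1) (fun j _ => isHomogeneous_X k _)
      simpa using this
    have h1 := ((isHomogeneous_X k z.1.1).pow (D - Da z.1.2)).mul
      (h0.mul (mnr_hom f d hf z.1.2 z.2))
    have h2 : 1 * (D - Da z.1.2) + (s + ∑ i, (d (z.1.2 i) - 1)) = D + s := by
      have := hD z.1.2
      simp only [Da] at this ⊢
      omega
    rw [h2] at h1
    exact h1
  have hmem : ∀ l, ∃ M : ℕ, X l ^ M ∈ Ideal.span (Set.range f ∪ Set.range p') := by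
    intro l
    refine nss f p' ?_ l
    intro Ω _ _ z hz hfz
    letI : Algebra k Ω := ((algebraMap (AlgebraicClosure k) Ω).comp
      (algebraMap k (AlgebraicClosure k))).toAlgebra
    have hmap : ∀ g : MvPolynomial (Fin (n + 1)) k,
        aeval z (g.map (algebraMap k (AlgebraicClosure k))) = aeval z g := by
      intro g
      rw [aeval_def, eval₂_map, aeval_def]
      rfl
    simp only [hmap] at hfz ⊢
    obtain ⟨-, α, β, h1, h2⟩ := hG k n t u s f G hT Ω z hz hfz
    obtain ⟨l0, hl0⟩ := Function.ne_iff.mp hz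
    refine ⟨((l0, α), β), ?_⟩
    simp only [p', map_mul, map_pow, aeval_X, map_prod, aeval_mnr]
    exact mul_ne_zero (pow_ne_zero _ hl0) (mul_ne_zero (Finset.prod_ne_zero_iff.mpr
      fun j _ => h1 j) h2)
  obtain ⟨c1, hc1⟩ := up D p hp
  obtain ⟨c2, hc2⟩ := low (D + s) f d hf p' hp' hmem
  refine ⟨c1 + c2, ?_⟩
  intro L _ _ _ x hx hfx α hα
  have : FiniteDimensional k L := Module.Finite.of_restrictScalars_finite ℚ k L
  have hfr : (0 : ℝ) < finrank k L := by exact_mod_cast (Module.finrank_pos (R := k) (M := L))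
  obtain ⟨hrows, -⟩ := hG k n t u s f G hT L x hx hfx
  obtain ⟨b0, hb0⟩ := Function.ne_iff.mp hα
  set v := gaussRow f α x with hv
  let lam : (Fin s → Fin t) → L := fun a => gaussRow f a x b0 / v b0
  have hlam : ∀ a b, gaussRow f a x b = lam a * v b := by
    intro a b
    have h1 := hrows a α b b0
    have hb0' : v b0 ≠ 0 := hb0
    simp only [lam]
    rw [div_mul_eq_mul_div, eq_div_iff hb0']
    exact h1
  let U : Fin (n + 1) × (Fin s → Fin t) → L := fun z => x z.1 ^ (D - Da z.2) * lam z.2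
  have hU : U ≠ 0 := by
    obtain ⟨l0, hl0⟩ := Function.ne_iff.mp hx
    refine Function.ne_iff.mpr ⟨(l0, α), ?_⟩
    have hb0' : v b0 ≠ 0 := hb0
    simp only [U, lam, ← hv]
    rw [div_self hb0', mul_one]
    exact pow_ne_zero _ hl0
  have e1 : (fun z => aeval x (p z)) = fun z : I => U z.1 * v z.2 := by
    funext z
    simp only [p, U, map_mul, map_pow, aeval_X, aeval_mnr, hlam]
    ring
  let w : (Fin s → Fin (n + 1)) → L := fun b => (∏ j, x (b j)) * v b
  have e2 : (fun z => aeval x (p' z)) = fun z : I => U z.1 * w z.2 := by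
    funext z
    simp only [p', U, w, map_mul, map_pow, map_prod, aeval_X, aeval_mnr, hlam]
    ring
  obtain ⟨hne, h2⟩ := hc2 L x hx hfx
  have h1 := hc1 L x hx
  have hw : w ≠ 0 := by
    intro h0
    apply hne
    rw [e2]
    funext z
    rw [h0]
    simp
  rw [e1] at h1
  rw [e2] at h2
  unfold heightI at h1 h2 ⊢
  rw [Height.logHeight_fun_mul_eq hU hα] at h1
  rw [Height.logHeight_fun_mul_eq hU hw] at h2
  rw [add_div] at h1 h2
  push_cast at h2
  have h3 : (fun β : Fin s → Fin (n + 1) => (∏ j, x (β j)) * v β) = w := rfl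
  rw [h3]
  linarith

end Pool.Agent.J4.H5.VJ.NSXh
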